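import Pool.Agent.H.MP_44674b_co.E

namespace Pool.Agent.H.MP_711634_co

open Finset MP_44674b_co.D

def ix (p : I3 3) : ℕ := 16 * p.1.val + 4 * p.2.1.val + p.2.2.val
def ok (t : I3 3) : Bool := (0xfec8efc4cc328421 : ℕ).testBit (ix t)
def pp (i j k : Fin 4) : ℕ :=
  (0x4964a02802004a0496440040280440013008200040008001 >>> (3 * ix (i, j, k))) % 8
def KK (i j k : Fin 4) : ℤ := pp i j k
def QQ (i j : Fin 4) : ℤ := (((0x4013041300538853 >>> (4 * (4 * i.val + j.val))) % 16 : ℕ) : ℤ) - 2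
def YE (N : I3 3 → I3 3 → ℤ) (s t : I3 3) : ℤ :=
  ∑ q : I3 3, QQ q.1 s.1 * QQ q.2.1 s.2.1 * QQ q.2.2 s.2.2 * N q t

noncomputable def EE (r : Fin 16 → Fin 16 → Fin 4) (j : Fin 4) : Matrix (Fin 16) (Fin 16) ℂ :=
  Matrix.of fun x y => (Fintype.card (Fin 16) : ℂ)⁻¹ * QQ (r x y) j

lemma shift2 {X : Type} [Fintype X] {d : ℕ} (r : X → X → Fin (d + 1)) (o : X) (g : X → X → X)
    (hd : ∀ x y, r x y = 0 ↔ x = y) (hg : ∀ x a b, r (g x a) (g x b) = r a b)
    (ho : ∀ x, g x x = o) (N : I3 d → I3 d → ℤ)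
    (h : ∀ p y z, yy r p o y z = N p (r o z, r o y, r y z)) (p : I3 d) (x y z : X) :
    yy r p x y z = N p (r x z, r x y, r y z) := by
  have hi : Function.Injective (g x) := fun a b e => (hd a b).1 (by rw [← hg x, e, hd])
  have := h p (g x y) (g x z)
  rw [← ho x, hg, hg, hg] at this
  rw [← this]
  unfold yy
  symm
  rw [← Equiv.sum_comp (Equiv.ofBijective (g x) (Finite.injective_iff_bijective.1 hi))]
  simp [hg]

lemma tY_E (r : Fin 16 → Fin 16 → Fin 4) (N : I3 3 → I3 3 → ℤ)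
    (h : ∀ p x y z, yy r p x y z = N p (r x z, r x y, r y z)) (s : I3 3) (x y z : Fin 16) :
    tY (EE r s.1) (EE r s.2.1) (EE r s.2.2) x y z =
      4096⁻¹ * (YE N s (r x z, r x y, r y z) : ℂ) := by
  simp only [YE, ← h, yy, tY, EE, Matrix.of_apply, Fintype.card_fin]
  push_cast
  simp only [mul_sum]
  rw [sum_comm]
  refine sum_congr rfl fun u _ => ?_
  simp only [mul_ite, mul_one, mul_zero, sum_ite_eq', mem_univ, if_true]
  ring

lemma viaRep (r : Fin 16 → Fin 16 → Fin 4) (a b : I3 3 → Fin 16) (N : I3 3 → I3 3 → ℤ)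
    (h1 : ∀ y z, (univ.val.map fun u => (r 0 u, r y u, r z u)) = univ.val.map fun u =>
      (r 0 u, r (a (r 0 z, r 0 y, r y z)) u, r (b (r 0 z, r 0 y, r y z)) u))
    (h2 : ∀ t, ok t = true → ∀ p, yy r p 0 (a t) (b t) = N p t)
    (h3 : ∀ x y z, ok (r x z, r x y, r y z) = true) (p : I3 3) (y z : Fin 16) :
    yy r p 0 y z = N p (r 0 z, r 0 y, r y z) := by
  rw [← h2 _ (h3 0 y z)]
  have := congrArg (fun m => (m.map fun t => if p = t then (1 : ℤ) else 0).sum) (h1 y z)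
  simp only [Multiset.map_map] at this
  exact this

lemma mkScheme (r : Fin 16 → Fin 16 → Fin 4) (N : I3 3 → I3 3 → ℤ)
    (h : ∀ p x y z, yy r p x y z = N p (r x z, r x y, r y z)) (h1 : ∀ i, ∃ x y, r x y = i)
    (h2 : ∀ x y, r x y = 0 ↔ x = y) (h3 : ∀ x y, r x y = r y x)
    (h4 : ∀ i j k, N (i, j, i) (0, k, k) = pp i j k) : IsScheme r pp := by
  refine ⟨h1, h2, h3, fun i j x y => ?_⟩
  have := h (i, j, i) x y x
  rw [(h2 x x).2 rfl, h3 y x, h4] at this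
  apply Nat.cast_injective (R := ℤ)
  rw [← this, card_filter, yy]
  push_cast
  refine sum_congr rfl fun u _ => if_congr ?_ rfl rfl
  simp only [Prod.mk.injEq, h3 u y]
  tauto

lemma q0 : ∀ i, QQ i 0 = 1 := by decide +kernel

lemma mkqa (r : Fin 16 → Fin 16 → Fin 4) (N : I3 3 → I3 3 → ℤ)
    (h : ∀ p x y z, yy r p x y z = N p (r x z, r x y, r y z))
    (h2 : ∀ x y, r x y = 0 ↔ x = y) (h3 : ∀ x y, r x y = r y x)
    (h4 : ∀ j k m, YE N (j, k, 0) (0, m, m) = if j = k then 16 * QQ m j else 0) (j k : Fin 4)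
    (x y : Fin 16) : ∑ u, QQ (r x u) j * QQ (r u y) k =
      if j = k then 16 * QQ (r x y) j else 0 := by
  rw [← h4]
  have e : (0, r x y, r x y) = (r x x, r x y, r y x) := by rw [(h2 x x).2 rfl, h3 y x]
  simp only [YE, e, ← h, yy, mul_sum, q0]
  rw [sum_comm]
  refine sum_congr rfl fun u _ => ?_
  simp only [mul_ite, mul_one, mul_zero, sum_ite_eq', mem_univ, if_true, h3 u y]

lemma mkss (N : I3 3 → I3 3 → ℤ) (S W : I3 3 → ℤ)
    (h : ∀ q : I3 3, ∑ s ∈ univ.filter (fun s : I3 3 => 0 < KK s.1 s.2.1 s.2.2),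
      S s * (QQ q.1 s.1 * QQ q.2.1 s.2.1 * QQ q.2.2 s.2.2) = W q) (t : I3 3) :
    ∑ s ∈ univ.filter (fun s : I3 3 => 0 < KK s.1 s.2.1 s.2.2), S s * YE N s t =
      ∑ q, W q * N q t := by
  simp only [YE, ← h, mul_sum, sum_mul]
  rw [sum_comm]
  exact sum_congr rfl fun _ _ => sum_congr rfl fun _ _ => by ring

lemma kk : ∀ a b i, QQ i a * QQ i b = ∑ c, KK a b c * QQ i c := by decide +kernel

lemma krein (r : Fin 16 → Fin 16 → Fin 4) (a b : Fin 4) : (EE r a).hadamard (EE r b) =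
    (Fintype.card (Fin 16) : ℂ)⁻¹ • ∑ c, (((KK a b c : ℝ) : ℂ)) • EE r c := by
  ext x y
  have : (QQ (r x y) a : ℂ) * QQ (r x y) b = ∑ c, (KK a b c : ℂ) * QQ (r x y) c := by
    exact_mod_cast kk a b (r x y)
  simp only [Matrix.hadamard_apply, EE, Matrix.of_apply, Matrix.smul_apply, Matrix.sum_apply,
    smul_eq_mul, Complex.ofReal_intCast, mul_left_comm (KK _ _ _ : ℂ), ← mul_sum, ← this]
  ring

lemma mtch (r : Fin 16 → Fin 16 → Fin 4) (j : Fin 4) :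
    EE r j = ∑ i, ((Fintype.card (Fin 16) : ℂ)⁻¹ * QQ i j) • adj r i := by
  ext x y; simp [EE, Matrix.sum_apply, adj]

end Pool.Agent.H.MP_711634_co
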